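import Pool.Agent.R900.EX.Fermat

/-!
# The generalized conjecture of Tate and Beilinson for schemes generated by products of Fermat
# varieties

Let `m` be prime to the prime `p`. We call the degree `m` good for `p` (`GoodDegree`) if

* all prime divisors of `m` lie in `{2, 3, 5}`, or all in `{2, 3, 7}`, or all in `{2, q}` for a prime
  `q` congruent to seven modulo eight, or `4` does not divide `m` and all lie in `{2, 3, 11}`, or all
  in `{2, 3, 13}`; here `p` is any prime that does not divide `m`; or
* `m = u v`, or `m = 2 u v` with odd `u v`, where `u`, `v` are powers of two different primes and `-1`
  is a power of `p` modulo `u` and modulo `v`, but not necessarily modulo `m`; or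
* `p` and the odd primes dividing `m` are squares modulo the (other) odd primes dividing `m`, with
  some conditions on orders (`Squares`); for example if `4` does not divide `m`, `p` has odd order
  modulo `m` and the odd primes dividing `m` are squares modulo each other.

`Homology Ω V` are data of motivic homology `M X n j = H_n^M(X, ℚ(j)) = CH_j(X, n - 2 j) ⊗ ℚ` (higher
Chow groups) and of `ℓ`-adic homology `E X n j = H_n(X, ℚ_ℓ(j))` of schemes `X : V` of finite type over
finite fields, with the Frobenius and the regulator. Let `𝒢` (`Generated`) be the smallest class of
schemes that contains all products of Fermat varieties `x_0 ^ m + ... + x_(n+1) ^ m = 0`, of any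
dimensions, of the same degree `m` that is good for the characteristic (`IsFermat`), that is closed
under direct summands of finite sums of twists of motives, and that contains all of a closed subscheme
`Z` of `X`, `X` and `X ∖ Z` if it contains two of them. For example, it contains the quotients of these
varieties by finite groups, the products of Fermat curves `x ^ m + y ^ m + z ^ m = 0` and of curves
dominated by them, the affine Fermat varieties and the complements of coordinate hyperplanes.

**Theorem.** For all schemes `X` in `𝒢` - smooth or not, proper or not - and all `i`, `j` the regulator
induces an isomorphism of `H_i^M(X, ℚ(j)) ⊗ Ω` with the space of the Frobenius invariant elements in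
`H_i(X, ℚ_ℓ(j)) ⊗ Ω`, and the eigenvalue one of the Frobenius on it is semisimple: the conjecture
`TB(X)` of Jannsen holds.

The starting result `FermatOddSurfaces` treats other pairs of a degree and a characteristic, and only the
combinatorial part: that Tate characters are composed of those of surfaces and of standard characters.

Properties that are used for the products `X` of Fermat varieties. `IsCyc`: Poincaré duality, the formal
properties of correspondences, Deligne's theorem, the nilpotence of homologically trivial
correspondences (Kimura; the motive of `X` is a direct summand of a sum of twists of motives of products
of curves by Shioda and Katsura), the operation of the Frobenius endomorphism on higher Chow groups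
(Soulé) and the vanishing of the higher rational `K`-groups of a finite field (Quillen). `HasLines`: the
decomposition of the cohomology into lines labelled by multisets of residues modulo `m`, the theorem of
Stickelberger, and the algebraicity of lines whose label becomes, after raising the degree, composed of
labels of surfaces and of standard labels (Tate, Shioda, Katsura, Aoki). That the labels of all Tate
classes of good degrees are composed in this way was proved in the starting files
(`MP_021685_ag.FermatEveryCharacteristic`, `MP_950c68_ag.FermatTwoPrimes`,
`MP_0d42ed_ag.FermatEvenOrders`). The passage from there to all degrees and to the class `𝒢`
(`tb_fermat`, in `Pool/Agent/R900/EX/Fermat.lean`) is due to Soulé, Geisser, Kahn and Jannsen.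
-/

set_option autoImplicit false

namespace Pool.Agent.Results.MP_2ce3e7_ag.FermatVarieties

open Pool.Agent.W495.FM Pool.Agent.R900.EX

/-- Jannsen's conjecture `TB(X)` for all members of the class generated by the products of Fermat
varieties. -/
theorem result (Ω : Type) [Field Ω] [CharZero Ω] (V : Type) (T : Homology Ω V) (hT : IsHomology T)
    (X : V) (hX : Generated T (IsFermat T) X) : TB T X :=
  tb_fermat hT hX

end Pool.Agent.Results.MP_2ce3e7_ag.FermatVarieties
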