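import Pool.Agent.R937.PZ.Mot

/-!
# The generalized conjecture of Tate and Beilinson for schemes generated by abelian varieties of
dimension at most five, and by products of elliptic curves, abelian surfaces and non-ordinary threefolds

Over an algebraic closure of the field with `p` elements each abelian variety is isogenous to the
reduction of an abelian variety of CM type (Honda, Tate). So an abelian variety over the field with
`p ^ a` elements is modelled by `RedAV`: a finite product of CM types `(E i, Φ i)` with Weil numbers
`π i ∈ E i` that satisfy the formula of Shimura and Taniyama; its cohomology of degree `n`, with
coefficients in an algebraically closed field `Ω`, consists of the alternating `n`-forms on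
`Ω ⊗ H_1`, on which the Frobenius endomorphism acts by `π`.

We consider (`IsGoodAVP`) the abelian varieties `Y` of the following kinds:

* all abelian varieties of dimension at most five;
* the abelian varieties that are isogenous, over an algebraic closure, to a product of a supersingular
  abelian variety of any dimension and of abelian varieties of dimension at most three (any number, any
  multiplicity), such that any two factors of dimension three whose CM fields have the same Galois
  closure satisfy one of the following: their fields are Galois over `ℚ`; one of them is supersingular;
  they are isogenous; **neither of them is ordinary and their `p`-ranks are not `{1, 2}`**.

So `Y` may be any product of elliptic curves, of abelian surfaces and of abelian threefolds that all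
have `p`-rank two, or that all have `p`-rank zero or one; nonisogenous threefolds with the same CM field,
or with different CM fields with the same Galois closure, are allowed. The theorem in the starting files
(`tb_goodS`, for `IsGoodAVS`) excludes two nonisogenous threefolds that are not supersingular and whose
CM fields have the same Galois closure, unless these fields are Galois over `ℚ`.

`Homology Ω V` are data of motivic homology `M X i j = H_i^M(X, ℚ(j))` (higher Chow groups) and of
`ℓ`-adic homology `E X i j = H_i(X, ℚ_ℓ(j))` (coefficients extended to `Ω`) of schemes `X` over a
finite field, with the Frobenius and the regulator. The class `Generated` contains the abelian
varieties above, it contains the schemes whose motives are direct summands of finite sums of twists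
of motives of members, and it contains all of `Z`, `X`, `U = X ∖ Z` if it contains two of them. For
example, it contains all products of curves of genus at most two and of open subsets of such curves,
and their symmetric powers; all varieties stratified by such varieties; the singular and the open
varieties that are obtained from abelian varieties of dimension at most five in this way.

**Theorem.** For all schemes `X` of this class - smooth or not, proper or not - and all `i`, `j` the
regulator induces an isomorphism of `H_i^M(X, ℚ(j)) ⊗ Ω` with the space of the Frobenius invariant
elements in `H_i(X, ℚ_ℓ(j)) ⊗ Ω`, and the eigenvalue one of the Frobenius on it is semisimple.

All Tate classes on all powers of `Y` are in `AlgS`, that is, they are generated by classes of degree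
two, by reductions of split Weil classes of degree four and six, and by reductions of Hodge classes of
degree four on products of elliptic curves and abelian surfaces: this is `Pool.Agent.R937.PG.main` (in
`Pool/Agent/R937/PZ`), which is not in the starting files.

Properties of the theory of cycles that are used for the abelian varieties `Y` (`IsChowS`,
`IsMotivic`): Poincaré duality, the formal properties of correspondences, the nilpotence of
homologically trivial correspondences (Kimura), the operation of the Frobenius endomorphism on higher
Chow groups, the vanishing of the higher rational `K`-groups of a finite field (Quillen), and the
algebraicity of the classes in `AlgS` (theorems of Tate, Markman and Ramón Marí). The passage from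
the Tate conjecture to all degrees is due to Soulé, Geisser, Kahn and Jannsen.
-/

set_option autoImplicit false

namespace Pool.Agent.Results.MP_2ce3e7_ag.NonOrdinaryThreefolds

open Pool.Agent.W495.TA Pool.Agent.W495.FM Pool.Agent.R937.PG

/-- Jannsen's conjecture `TB(X)` for all members of the class generated by the abelian varieties of
dimension at most five and by the products of elliptic curves, abelian surfaces and non-ordinary threefolds. -/
theorem result (p : ℕ) [Fact p.Prime] (ν : PadicAlgCl p ≃+* ℂ) (Ω : Type) [Field Ω]
    [IsAlgClosed Ω] [CharZero Ω] (V : Type) (T : Homology Ω V) (hT : IsHomology T) (X : V)
    (hX : Generated T (IsGoodAbelianP p ν T) X) : TB T X :=
  tb_goodP hT hX

end Pool.Agent.Results.MP_2ce3e7_ag.NonOrdinaryThreefolds
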