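import Pool.Agent.R904.TB.Main

/-!
# The conjecture TB over finite fields and trilinear forms

`Theory k F` lists the standard properties of the regulators `H_i^M(X, ℚ(j)) ⊗ ℚ_ℓ → H_i(X_k̄, ℚ_ℓ(j))` of
separated schemes of finite type over a finite field `k`, with `F = ℚ_ℓ`. `H.TB X` is Jannsen's `TB(X)`.
-/

set_option autoImplicit false

open Pool.Agent.R904.TB Pool.Agent.Y116.UV AlgebraicGeometry

namespace Pool.Agent.Results.MP_2ce3e7_ag.TrilinearForms

/-- (1) `TB(X)` holds for all separated schemes `X` of finite type over the finite field `k` if and only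
if it holds for the smooth affine cubic hypersurfaces `T(x, y, z) = 1`, for all trilinear forms `T` over
`k`. (2) For every `d`: `TB` for the smooth schemes of dimension at most `d`, `TB` for all schemes of
dimension at most `d`, and `TB` for the hypersurfaces `T(x, y, z) = 1` of the trilinear forms with a block
of at most `d + 2` variables are equivalent. (3) `TB` holds for `T(x, y, z) = 1`, if one of the blocks of
variables has at most three variables. (4) The hypersurfaces `T(x, y, z) = 1` are smooth. -/
theorem result (k : Type) [Field k] [Finite k] (F : Type) [Field F] (H : Theory k F) :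
    ((∀ X : Sch k, FT True X → H.TB X) ↔
      ∀ (a b c : ℕ) (T : Fin a → Fin b → Fin c → k), H.TB (hypS T)) ∧
    (∀ d : ℕ, (H.SmoothDim d ↔ H.Block (d + 2)) ∧
      (H.SmoothDim d ↔ ∀ X : Sch k, FT True X → topologicalKrullDim X.left ≤ d → H.TB X)) ∧
    H.Block 3 ∧ ∀ (a b c : ℕ) (T : Fin a → Fin b → Fin c → k), Smooth (hypS T).hom :=
  ⟨all_iff H, dim_iff H, block_three H, fun _ _ _ => Pool.Agent.Z125.UN.smooth_hypS⟩

end Pool.Agent.Results.MP_2ce3e7_ag.TrilinearForms
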